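import Pool.Agent.SGP.Stmts
import Pool.Agent.Helper29_SGE.Main

/-!
# SGP, row GEX: planar graphs have triangulations
-/

noncomputable section

namespace Pool.Agent.SGP.H20

open Pool.Agent.SGE Pool.Agent.SGP

/-- GEX -/
theorem gex : GexStmt := by
  intro n G hG
  have hout : OutStmt := H75.out H99.seg H99.per
  obtain ⟨g, hgp, hot, hcf⟩ := hout G hG
  let D : Fin n ⊕ Fin 3 → Fin n ⊕ Fin 3 → Prop := fun s t =>
    ∃ u v, s = Sum.inl u ∧ t = Sum.inl v ∧ G.Adj u v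
  have htmx : TmxStmt := H99.tmx
  obtain ⟨T, hT, hDT⟩ := htmx D hgp
    (by
      rintro s t ⟨u, v, h1, h2, h3⟩
      exact ⟨v, u, h2, h1, h3.symm⟩)
    (by
      rintro s ⟨u, v, h1, h2, h3⟩
      rw [h1] at h2
      have := Sum.inl_injective h2
      subst this
      exact G.loopless.irrefl u h3)
    (by
      rintro _ _ _ _ ⟨u, v, rfl, rfl, h3⟩ ⟨u', v', rfl, rfl, h3'⟩
      exact hcf u v u' v' h3 h3')
  have hswe : SweStmt := H29.sweStmt
  obtain ⟨E, F, hNT, hTE, hE⟩ := hswe hT hot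
  exact ⟨E, F, hNT, fun u v huv => hTE _ _ (hDT _ _ ⟨u, v, rfl, rfl, huv⟩), hE⟩

end Pool.Agent.SGP.H20
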